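import Mathlib

/-!
# The cohomology of smooth projective varieties, products, powers and correspondences
-/

namespace Pool.Agent.K4H35.NT

open Matrix

noncomputable section

/-- The rational cohomology `H(X) = ⊕ H ^ k(X)` of a smooth projective variety `X`, with basis `ι`:
`z` is the Hodge operator, the multiplication by `p - q` on `H ^ (p, q)`, and `one` is the unit class
in `H ^ 0(X)`. -/
structure Cohomology where
  /-- the basis -/
  ι : Type
  [fintype : Fintype ι]
  [decEq : DecidableEq ι]
  /-- the Hodge operator -/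
  z : Matrix ι ι ℂ
  /-- the unit class -/
  one : ι → ℚ

attribute [instance] Cohomology.fintype Cohomology.decEq

/-- A rational class as a complex class. -/
def cx {E : Type} (x : E → ℚ) : E → ℂ := fun a => (x a : ℂ)

/-- The class `x` is a Hodge class: it is killed by the Hodge operator. -/
def IsHodge (X : Cohomology) (x : X.ι → ℚ) : Prop := X.z *ᵥ cx x = 0

/-- The complex bilinear form of a rational matrix. -/
def form {E : Type} [Fintype E] (Q : Matrix E E ℚ) (x y : E → ℂ) : ℂ :=
  ∑ a, ∑ b, x a * (Q a b : ℂ) * y b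

/-- The rational form `Q` is a polarization: the Hodge operator is skew for `Q`, and
`i ^ (p - q) Q(x, x̄) > 0` for all classes `x ≠ 0` of type `(p, q)`. -/
def IsPolarization (X : Cohomology) (Q : Matrix X.ι X.ι ℚ) : Prop :=
  (∀ x y : X.ι → ℂ, form Q (X.z *ᵥ x) y + form Q x (X.z *ᵥ y) = 0) ∧
    ∀ (k : ℤ) (x : X.ι → ℂ), x ≠ 0 → X.z *ᵥ x = (k : ℂ) • x →
      ∃ r : ℝ, 0 < r ∧ Complex.I ^ k * form Q x (fun a => starRingEnd ℂ (x a)) = (r : ℂ)

/-- The properties of the cohomology of smooth projective varieties which are used: it is a polarized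
rational Hodge structure, and the unit class is a Hodge class. -/
structure IsPolarizedHodge (X : Cohomology) : Prop where
  /-- complex conjugation exchanges `H ^ (p, q)` and `H ^ (q, p)` -/
  real : X.z.map (starRingEnd ℂ) = -X.z
  /-- the complex cohomology is the sum of the subspaces of types `(p, q)` -/
  decomp : ∀ x : X.ι → ℂ, x ∈ Submodule.span ℂ {y | ∃ k : ℤ, X.z *ᵥ y = (k : ℂ) • y}
  one_ne : X.one ≠ 0
  one_hodge : IsHodge X X.one
  polarized : ∃ Q, IsPolarization X Q

/-- The cohomology of the product of two varieties (formula of Künneth). -/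
def Cohomology.prod (X X' : Cohomology) : Cohomology where
  ι := X.ι × X'.ι
  z := Matrix.of fun p q => (if p.2 = q.2 then X.z p.1 q.1 else 0) +
    if p.1 = q.1 then X'.z p.2 q.2 else 0
  one p := X.one p.1 * X'.one p.2

/-- The cohomology of the power `X ^ N`. -/
def Cohomology.pow (X : Cohomology) (N : ℕ) : Cohomology where
  ι := Fin N → X.ι
  z := Matrix.of fun u w => ∑ k, if ∀ l, l ≠ k → u l = w l then X.z (u k) (w k) else 0
  one u := ∏ k, X.one (u k)

/-- The rational linear map `F : H(X) → H(X')` is a morphism of Hodge structures (up to Tate twists):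
it commutes with the Hodge operators. By Poincaré duality these are the Hodge classes on
`X × X'`. -/
def IsCorrespondence (X X' : Cohomology) (F : Matrix X'.ι X.ι ℚ) : Prop :=
  X'.z * F.map (fun r => (r : ℂ)) = F.map (fun r => (r : ℂ)) * X.z

/-- The class on `A × Y ^ N` obtained from the class `G` on `A × B ^ t` by the correspondence
`id × F (c 0) × ... × F (c (t - 1))`, where `F i` is a correspondence from `B` to `Y ^ (n i)` and `e`
numbers the factors of `Y ^ N`. -/
def transfer {A B Y : Cohomology} {m : ℕ} {n : Fin m → ℕ}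
    (F : ∀ i, Matrix (Fin (n i) → Y.ι) B.ι ℚ) {N t : ℕ} (c : Fin t → Fin m)
    (e : (Σ s, Fin (n (c s))) ≃ Fin N) (G : A.ι × (Fin t → B.ι) → ℚ) :
    A.ι × (Fin N → Y.ι) → ℚ :=
  fun p => ∑ u, G (p.1, u) * ∏ s, F (c s) (fun a => p.2 (e ⟨s, a⟩)) (u s)

/-- The combinations of the classes on `A × Y ^ N` which are obtained from Hodge classes on the
varieties `A × B ^ t` by the products of the correspondences `F i`. -/
def transferredClasses (A B Y : Cohomology) {m : ℕ} {n : Fin m → ℕ}
    (F : ∀ i, Matrix (Fin (n i) → Y.ι) B.ι ℚ) (N : ℕ) :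
    Submodule ℚ (A.ι × (Fin N → Y.ι) → ℚ) :=
  Submodule.span ℚ {x | ∃ (t : ℕ) (c : Fin t → Fin m) (e : (Σ s, Fin (n (c s))) ≃ Fin N)
    (G : A.ι × (Fin t → B.ι) → ℚ), IsHodge (A.prod (B.pow t)) G ∧ x = transfer F c e G}

end

end Pool.Agent.K4H35.NT
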