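import Mathlib
import Pool.Agent.K4H35.NT.Defs
import Pool.Agent.K4H35.ST.PTen

/-!
# Frames of products and powers, and forms on stable subspaces
-/

set_option linter.unusedSectionVars false

namespace Pool.Agent.K4H35.NT

open Matrix Module Pool.Agent.W437.HC Pool.Agent.W437.HP Pool.Agent.K4H35.ST

open scoped ComplexOrder Kronecker

noncomputable section

section frames

variable {E E' : Type} [Fintype E] [DecidableEq E] [Fintype E'] [DecidableEq E']

/-- The Hodge operator of a product. -/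
def dsum (D : Matrix E E ℂ) (D' : Matrix E' E' ℂ) : Matrix (E × E') (E × E') ℂ :=
  D ⊗ₖ (1 : Matrix E' E' ℂ) + (1 : Matrix E E ℂ) ⊗ₖ D'

theorem dsum_mul_kron {E1 E1' : Type} [Fintype E1] [DecidableEq E1] [Fintype E1']
    [DecidableEq E1'] {D : Matrix E E ℂ} {D' : Matrix E' E' ℂ} {D1 : Matrix E1 E1 ℂ}
    {D1' : Matrix E1' E1' ℂ} {F : Matrix E1 E ℂ} {F' : Matrix E1' E' ℂ} (h : D1 * F = F * D)
    (h' : D1' * F' = F' * D') : dsum D1 D1' * (F ⊗ₖ F') = (F ⊗ₖ F') * dsum D D' := by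
  unfold dsum
  rw [Matrix.add_mul, Matrix.mul_add, ← mul_kronecker_mul, ← mul_kronecker_mul,
    ← mul_kronecker_mul, ← mul_kronecker_mul, h, h', Matrix.one_mul, Matrix.one_mul,
    Matrix.mul_one, Matrix.mul_one]

theorem dsum_diagonal (d : E → ℂ) (d' : E' → ℂ) :
    dsum (diagonal d) (diagonal d') = diagonal fun p => d p.1 + d' p.2 := by
  unfold dsum
  rw [← diagonal_one, ← diagonal_one, diagonal_kronecker_diagonal, diagonal_kronecker_diagonal,
    diagonal_add]
  congr 1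
  funext p
  rw [mul_one, one_mul]

/-- The frame of a product. -/
def frProd {D : Matrix E E ℂ} {Q : Matrix E E ℂ} {D' : Matrix E' E' ℂ} {Q' : Matrix E' E' ℂ}
    (f : Fr D Q) (f' : Fr D' Q') : Fr (dsum D D') (Q ⊗ₖ Q') where
  P := f.P ⊗ₖ f'.P
  Pi := f.Pi ⊗ₖ f'.Pi
  R := f.R ⊗ₖ f'.R
  Ri := f.Ri ⊗ₖ f'.Ri
  j p := f.j p.1 + f'.j p.2
  PPi := by rw [← mul_kronecker_mul, f.PPi, f'.PPi, one_kronecker_one]
  PiP := by rw [← mul_kronecker_mul, f.PiP, f'.PiP, one_kronecker_one]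
  RRi := by rw [← mul_kronecker_mul, f.RRi, f'.RRi, one_kronecker_one]
  RiR := by rw [← mul_kronecker_mul, f.RiR, f'.RiR, one_kronecker_one]
  eig := by
    rw [dsum_mul_kron f.eig f'.eig, dsum_diagonal]
    congr 2
    funext p
    push_cast
    rfl
  gram := by
    rw [conjTranspose_kronecker, ← mul_kronecker_mul, ← mul_kronecker_mul, f.gram, f'.gram,
      mul_kronecker_mul, diagonal_kronecker_diagonal, conjTranspose_kronecker,
      ← mul_kronecker_mul]
    congr 2
    funext p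
    rw [neg_add, zpow_add₀ Complex.I_ne_zero]
  off p q h := by
    rw [conjTranspose_kronecker, ← mul_kronecker_mul, kronecker_apply]
    by_cases h1 : f.j p.1 = f.j q.1
    · have h2 : f'.j p.2 ≠ f'.j q.2 := fun h2 => h (by rw [h1, h2])
      rw [f'.off _ _ h2, mul_zero]
    · rw [f.off _ _ h1, zero_mul]

theorem derM_diagonal (n : ℕ) (d : E → ℂ) :
    derM n (diagonal d) = diagonal fun w => ∑ a, d (w a) := by
  ext I J
  rw [derM_apply]
  by_cases h : I = J
  · subst h
    rw [diagonal_apply_eq]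
    refine Finset.sum_congr rfl fun k _ => ?_
    rw [if_pos fun l _ => rfl, diagonal_apply_eq]
  · rw [diagonal_apply_ne _ h]
    refine Finset.sum_eq_zero fun k _ => ?_
    split_ifs with h1
    · refine diagonal_apply_ne _ fun h2 => h ?_
      funext l
      by_cases hl : l = k
      · rw [hl, h2]
      · exact h1 l hl
    · rfl

/-- The frame of a power. -/
def frPow {D : Matrix E E ℂ} {Q : Matrix E E ℂ} (f : Fr D Q) (n : ℕ) :
    Fr (derM n D) (powM n Q) where
  P := powM n f.P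
  Pi := powM n f.Pi
  R := powM n f.R
  Ri := powM n f.Ri
  j w := ∑ a, f.j (w a)
  PPi := by rw [← powM_mul, f.PPi, powM_one]
  PiP := by rw [← powM_mul, f.PiP, powM_one]
  RRi := by rw [← powM_mul, f.RRi, powM_one]
  RiR := by rw [← powM_mul, f.RiR, powM_one]
  eig := by
    rw [derM_powM f.eig, derM_diagonal]
    congr 2
    funext w
    push_cast
    rfl
  gram := by
    rw [powM_conjTranspose, ← powM_mul, ← powM_mul, f.gram, powM_mul, powM_diagonal,
      powM_conjTranspose, ← powM_mul]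
    congr 2
    funext w
    rw [prod_zpow_sum, Finset.sum_neg_distrib]
  off w w' h := by
    rw [powM_conjTranspose, ← powM_mul, powM_apply]
    obtain ⟨a, ha⟩ : ∃ a, f.j (w a) ≠ f.j (w' a) := by
      by_contra hcon
      push Not at hcon
      exact h (Finset.sum_congr rfl fun a _ => hcon a)
    exact Finset.prod_eq_zero (Finset.mem_univ a) (f.off _ _ ha)

/-- The operator `i ^ (p - q)` is a polynomial in the Hodge operator. -/
theorem weil_mem {D Q : Matrix E E ℂ} (f : Fr D Q) {W : Submodule ℂ (E → ℂ)}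
    (hW : ∀ x ∈ W, D *ᵥ x ∈ W) {x : E → ℂ} (hx : x ∈ W) :
    f.P *ᵥ (diagonal (fun a => Complex.I ^ (f.j a)) *ᵥ (f.Pi *ᵥ x)) ∈ W := by
  classical
  obtain ⟨p, hp⟩ : ∃ p : Polynomial ℂ, ∀ a, p.eval (f.j a : ℂ) = Complex.I ^ (f.j a) := by
    let s : Finset ℂ := Finset.univ.image fun a => (f.j a : ℂ)
    have hs : Set.InjOn (id : ℂ → ℂ) s := fun a _ b _ h => h
    let r : ℂ → ℂ := fun c => if h : ∃ k : ℤ, (k : ℂ) = c then Complex.I ^ h.choose else 0
    refine ⟨Lagrange.interpolate s id r, fun a => ?_⟩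
    have h1 : (f.j a : ℂ) ∈ s := Finset.mem_image_of_mem _ (Finset.mem_univ a)
    have h2 := Lagrange.eval_interpolate_at_node r hs h1
    rw [id] at h2
    rw [h2]
    have h3 : ∃ k : ℤ, (k : ℂ) = (f.j a : ℂ) := ⟨f.j a, rfl⟩
    change (if h : ∃ k : ℤ, (k : ℂ) = (f.j a : ℂ) then Complex.I ^ h.choose else 0) = _
    rw [dif_pos h3]
    congr 1
    exact_mod_cast h3.choose_spec
  have h1 : ∀ (n : ℕ), ∀ x ∈ W, (D ^ n) *ᵥ x ∈ W := by
    intro n
    induction n with
    | zero =>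
      intro x hx
      rw [pow_zero, one_mulVec]
      exact hx
    | succ n ih =>
      intro x hx
      rw [pow_succ, ← mulVec_mulVec]
      exact ih _ (hW x hx)
  have h2 : ∀ n : ℕ, D ^ n * f.P = f.P * (diagonal fun a => (f.j a : ℂ)) ^ n := by
    intro n
    induction n with
    | zero => rw [pow_zero, pow_zero, Matrix.one_mul, Matrix.mul_one]
    | succ n ih => rw [pow_succ, pow_succ, Matrix.mul_assoc, f.eig, ← Matrix.mul_assoc, ih,
        Matrix.mul_assoc]
  have h3 : f.P *ᵥ (diagonal (fun a => Complex.I ^ (f.j a)) *ᵥ (f.Pi *ᵥ x)) =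
      ∑ n ∈ Finset.range (p.natDegree + 1), p.coeff n • ((D ^ n) *ᵥ x) := by
    have h4 : ∀ n : ℕ, (D ^ n) *ᵥ x = f.P *ᵥ (((diagonal fun a => (f.j a : ℂ)) ^ n) *ᵥ
        (f.Pi *ᵥ x)) := by
      intro n
      rw [mulVec_mulVec, mulVec_mulVec, ← h2, Matrix.mul_assoc, f.PPi, Matrix.mul_one]
    have h5 : ∀ y : E → ℂ, diagonal (fun a => Complex.I ^ (f.j a)) *ᵥ y =
        ∑ n ∈ Finset.range (p.natDegree + 1),
          p.coeff n • (((diagonal fun a => (f.j a : ℂ)) ^ n) *ᵥ y) := by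
      intro y
      funext a
      rw [Finset.sum_apply, mulVec_diagonal, ← hp, Polynomial.eval_eq_sum_range, Finset.sum_mul]
      refine Finset.sum_congr rfl fun n _ => ?_
      rw [Pi.smul_apply, diagonal_pow, mulVec_diagonal, smul_eq_mul, mul_assoc]
      rfl
    rw [h5, mulVec_sum]
    refine Finset.sum_congr rfl fun n _ => ?_
    rw [mulVec_smul, h4]
  rw [h3]
  exact Submodule.sum_mem _ fun n _ => Submodule.smul_mem _ _ (h1 n x hx)

theorem star_cx (x : E → ℚ) : star (cx x) = cx x := by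
  funext w
  exact map_ratCast (starRingEnd ℂ) _

theorem cx_add (x y : E → ℚ) : cx (x + y) = cx x + cx y := by
  funext w
  change ((x w + y w : ℚ) : ℂ) = (x w : ℂ) + (y w : ℂ)
  push_cast
  rfl

theorem cx_smul (r : ℚ) (x : E → ℚ) : cx (r • x) = (r : ℂ) • cx x := by
  funext w
  change ((r * x w : ℚ) : ℂ) = (r : ℂ) * (x w : ℂ)
  push_cast
  rfl

theorem cx_zero : cx (0 : E → ℚ) = 0 := by
  funext w
  exact Rat.cast_zero

theorem cx_injective {x y : E → ℚ} (h : cx x = cx y) : x = y := by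
  funext w
  exact Rat.cast_injective (congrFun h w)

theorem cx_mulVec (M : Matrix E' E ℚ) (x : E → ℚ) : cx (M *ᵥ x) = cK ℂ M *ᵥ cx x := by
  funext w
  change ((∑ a, M w a * x a : ℚ) : ℂ) = ∑ a, ((M w a : ℚ) : ℂ) * ((x a : ℚ) : ℂ)
  push_cast
  rfl

/-- The form of a polarization is nondegenerate on the rational subspaces which are stable under the
Hodge operator. -/
theorem nondeg {D : Matrix E E ℂ} {Q : Matrix E E ℚ} (f : Fr D (cK ℂ Q))
    {W : Submodule ℚ (E → ℚ)} (hW : ∀ x ∈ W, D *ᵥ cx x ∈ Submodule.span ℂ (cx '' (W : Set _)))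
    {x : E → ℚ} (hx : x ∈ W) (h : ∀ y ∈ W, x ⬝ᵥ (Q *ᵥ y) = 0) : x = 0 := by
  have hW' : ∀ y ∈ Submodule.span ℂ (cx '' (W : Set (E → ℚ))),
      D *ᵥ y ∈ Submodule.span ℂ (cx '' (W : Set (E → ℚ))) := by
    intro y hy
    induction hy using Submodule.span_induction with
    | mem y hy =>
      obtain ⟨z, hz, rfl⟩ := hy
      exact hW z hz
    | zero =>
      rw [mulVec_zero]
      exact Submodule.zero_mem _
    | add a b _ _ ha hb =>
      rw [mulVec_add]
      exact Submodule.add_mem _ ha hb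
    | smul r a _ ha =>
      rw [mulVec_smul]
      exact Submodule.smul_mem _ _ ha
  have h1 : ∀ y ∈ Submodule.span ℂ (cx '' (W : Set (E → ℚ))), cx x ⬝ᵥ (cK ℂ Q *ᵥ y) = 0 := by
    intro y hy
    induction hy using Submodule.span_induction with
    | mem y hy =>
      obtain ⟨z, hz, rfl⟩ := hy
      have h2 := dot_cst x Q z
      rw [h z hz, Rat.cast_zero] at h2
      exact h2.symm
    | zero => rw [mulVec_zero, dotProduct_zero]
    | add a b _ _ ha hb => rw [mulVec_add, dotProduct_add, ha, hb, add_zero]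
    | smul r a _ ha => rw [mulVec_smul, dotProduct_smul, ha, smul_zero]
  obtain ⟨ξ, hξ⟩ : ∃ ξ, ξ = f.Pi *ᵥ cx x := ⟨_, rfl⟩
  have h2 := h1 _ (weil_mem f hW' (Submodule.subset_span ⟨x, hx, rfl⟩))
  rw [← hξ] at h2
  have h3 : cx x = f.P *ᵥ ξ := by
    rw [hξ, mulVec_mulVec, f.PPi, one_mulVec]
  have h4 : star ξ ⬝ᵥ ((f.Pᴴ * cK ℂ Q * f.P) *ᵥ
      (diagonal (fun a => Complex.I ^ (f.j a)) *ᵥ ξ)) = 0 := by
    rw [← mulVec_mulVec, ← mulVec_mulVec, dotProduct_mulVec, ← star_mulVec, ← h3, star_cx]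
    exact h2
  have h5 : f.Pᴴ * cK ℂ Q * f.P * diagonal (fun a => Complex.I ^ (f.j a)) = f.Rᴴ * f.R := by
    rw [f.gram]
    ext a b
    rw [Matrix.mul_assoc, diagonal_mul, mul_diagonal]
    by_cases hab : f.j a = f.j b
    · rw [hab, mul_comm ((f.Rᴴ * f.R) a b), ← mul_assoc, ← zpow_add₀ Complex.I_ne_zero,
        neg_add_cancel, zpow_zero, one_mul]
    · rw [f.off a b hab, zero_mul, mul_zero]
  rw [mulVec_mulVec, h5, ← mulVec_mulVec, dotProduct_mulVec, ← star_mulVec,
    dotProduct_star_self_eq_zero] at h4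
  have h6 : ξ = 0 := by
    have h7 : f.Ri *ᵥ (f.R *ᵥ ξ) = 0 := by rw [h4, mulVec_zero]
    rwa [mulVec_mulVec, f.RiR, one_mulVec] at h7
  rw [h6, mulVec_zero] at h3
  exact cx_injective (h3.trans cx_zero.symm)

end frames

end

end Pool.Agent.K4H35.NT
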