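import Mathlib
import Pool.Agent.K4H35.NT.Frm

/-!
# The part of a Hodge structure which comes from a class of varieties
-/

set_option linter.unusedSectionVars false

namespace Pool.Agent.K4H35.NT

open Matrix Module Pool.Agent.W437.HC Pool.Agent.W437.HP Pool.Agent.K4H35.ST

open scoped ComplexOrder Kronecker

noncomputable section

section mor

variable {E E' E'' : Type} [Fintype E] [DecidableEq E] [Fintype E'] [DecidableEq E']
  [Fintype E''] [DecidableEq E'']

/-- Morphisms of rational Hodge structures. -/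
def Mor (D : Matrix E E ℂ) (D' : Matrix E' E' ℂ) (F : Matrix E' E ℚ) : Prop :=
  D' * cK ℂ F = cK ℂ F * D

theorem cK_mul (F : Matrix E' E ℚ) (F' : Matrix E'' E' ℚ) :
    cK ℂ (F' * F) = cK ℂ F' * cK ℂ F := by
  ext a b
  change ((∑ c, F' a c * F c b : ℚ) : ℂ) = ∑ c, ((F' a c : ℚ) : ℂ) * ((F c b : ℚ) : ℂ)
  push_cast
  rfl

theorem cK_one : cK ℂ (1 : Matrix E E ℚ) = 1 := by
  ext a b
  change (((1 : Matrix E E ℚ) a b : ℚ) : ℂ) = (1 : Matrix E E ℂ) a b
  rw [one_apply, one_apply]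
  split_ifs
  · exact Rat.cast_one
  · exact Rat.cast_zero

theorem cK_kron {E1 E1' : Type} (F : Matrix E1 E ℚ) (F' : Matrix E1' E' ℚ) :
    cK ℂ (F ⊗ₖ F') = cK ℂ F ⊗ₖ cK ℂ F' := by
  ext a b
  change ((F a.1 b.1 * F' a.2 b.2 : ℚ) : ℂ) = ((F a.1 b.1 : ℚ) : ℂ) * ((F' a.2 b.2 : ℚ) : ℂ)
  push_cast
  rfl

theorem cK_transpose (F : Matrix E' E ℚ) : cK ℂ Fᵀ = (cK ℂ F)ᵀ := rfl

theorem Mor.comp {D : Matrix E E ℂ} {D' : Matrix E' E' ℂ} {D'' : Matrix E'' E'' ℂ}
    {F : Matrix E' E ℚ} {F' : Matrix E'' E' ℚ} (h : Mor D D' F) (h' : Mor D' D'' F') :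
    Mor D D'' (F' * F) := by
  unfold Mor at *
  rw [cK_mul, ← Matrix.mul_assoc, h', Matrix.mul_assoc, h, Matrix.mul_assoc]

theorem Mor.kron {E1 E1' : Type} [Fintype E1] [DecidableEq E1] [Fintype E1'] [DecidableEq E1']
    {D : Matrix E E ℂ} {D' : Matrix E' E' ℂ} {D1 : Matrix E1 E1 ℂ} {D1' : Matrix E1' E1' ℂ}
    {F : Matrix E1 E ℚ} {F' : Matrix E1' E' ℚ} (h : Mor D D1 F) (h' : Mor D' D1' F') :
    Mor (dsum D D') (dsum D1 D1') (F ⊗ₖ F') := by
  unfold Mor at *
  rw [cK_kron]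
  exact dsum_mul_kron h h'

theorem Mor.one (D : Matrix E E ℂ) : Mor D D 1 := by
  unfold Mor
  rw [cK_one, Matrix.one_mul, Matrix.mul_one]

theorem dsum_mulVec (D : Matrix E E ℂ) (D' : Matrix E' E' ℂ) (x : E × E' → ℂ) (p : E × E') :
    (dsum D D' *ᵥ x) p = (D *ᵥ fun a => x (a, p.2)) p.1 + (D' *ᵥ fun b => x (p.1, b)) p.2 := by
  change ∑ q : E × E', (D p.1 q.1 * (1 : Matrix E' E' ℂ) p.2 q.2 +
    (1 : Matrix E E ℂ) p.1 q.1 * D' p.2 q.2) * x q =
      ∑ a, D p.1 a * x (a, p.2) + ∑ b, D' p.2 b * x (p.1, b)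
  simp only [add_mul, Finset.sum_add_distrib, Fintype.sum_prod_type]
  congr 1
  · refine Finset.sum_congr rfl fun a _ => ?_
    rw [Finset.sum_eq_single p.2]
    · rw [one_apply_eq, mul_one]
    · intro b _ hb
      rw [one_apply_ne (Ne.symm hb), mul_zero, zero_mul]
    · intro h
      exact absurd (Finset.mem_univ _) h
  · rw [Finset.sum_eq_single p.1]
    · refine Finset.sum_congr rfl fun b _ => ?_
      rw [one_apply_eq, one_mul]
    · intro a _ ha
      refine Finset.sum_eq_zero fun b _ => ?_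
      rw [one_apply_ne (Ne.symm ha), zero_mul, zero_mul]
    · intro h
      exact absurd (Finset.mem_univ _) h

theorem prod_z (X X' : Cohomology) : (X.prod X').z = dsum X.z X'.z := by
  ext p q
  change (if p.2 = q.2 then X.z p.1 q.1 else 0) + (if p.1 = q.1 then X'.z p.2 q.2 else 0) =
    X.z p.1 q.1 * (1 : Matrix X'.ι X'.ι ℂ) p.2 q.2 +
      (1 : Matrix X.ι X.ι ℂ) p.1 q.1 * X'.z p.2 q.2
  rw [one_apply, one_apply]
  split_ifs <;> simp

theorem pow_z (X : Cohomology) (N : ℕ) : (X.pow N).z = derM N X.z := rfl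

variable (S : Set Cohomology)

/-- The part of the Hodge structure which comes from the varieties in `S`. -/
def SP (D : Matrix E E ℂ) : Submodule ℚ (E → ℚ) :=
  Submodule.span ℚ {y | ∃ A ∈ S, ∃ F : Matrix E A.ι ℚ, Mor A.z D F ∧ ∃ a, y = F *ᵥ a}

variable {S}

theorem mem_SP {D : Matrix E E ℂ} {A : Cohomology} (hA : A ∈ S) {F : Matrix E A.ι ℚ}
    (hF : Mor A.z D F) (a : A.ι → ℚ) : F *ᵥ a ∈ SP S D :=
  Submodule.subset_span ⟨A, hA, F, hF, a, rfl⟩

theorem SP_map {D : Matrix E E ℂ} {D' : Matrix E' E' ℂ} {M : Matrix E' E ℚ} (hM : Mor D D' M)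
    {x : E → ℚ} (hx : x ∈ SP S D) : M *ᵥ x ∈ SP S D' := by
  refine Submodule.span_induction (p := fun x _ => M *ᵥ x ∈ SP S D') ?_ ?_ ?_ ?_ hx
  · rintro _ ⟨A, hA, F, hF, a, rfl⟩
    rw [mulVec_mulVec]
    exact mem_SP hA (hF.comp hM) a
  · rw [mulVec_zero]
    exact Submodule.zero_mem _
  · intro x y _ _ h1 h2
    rw [mulVec_add]
    exact Submodule.add_mem _ h1 h2
  · intro r x _ h1
    rw [mulVec_smul]
    exact Submodule.smul_mem _ _ h1

theorem SP_stable {D : Matrix E E ℂ} {x : E → ℚ} (hx : x ∈ SP S D) :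
    D *ᵥ cx x ∈ Submodule.span ℂ (cx '' (SP S D : Set (E → ℚ))) := by
  refine Submodule.span_induction (p := fun x _ => D *ᵥ cx x ∈
    Submodule.span ℂ (cx '' (SP S D : Set (E → ℚ)))) ?_ ?_ ?_ ?_ hx
  · rintro _ ⟨A, hA, F, hF, a, rfl⟩
    rw [cx_mulVec, mulVec_mulVec, hF, ← mulVec_mulVec]
    have h1 : ∀ y : A.ι → ℂ, cK ℂ F *ᵥ y = ∑ i, y i • cx (F *ᵥ Pi.single i 1) := by
      intro y
      funext w
      rw [Finset.sum_apply]
      refine Finset.sum_congr rfl fun i _ => ?_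
      rw [mulVec_single_one, Pi.smul_apply, smul_eq_mul, mul_comm]
      rfl
    rw [h1]
    exact Submodule.sum_mem _ fun i _ => Submodule.smul_mem _ _
      (Submodule.subset_span ⟨_, mem_SP hA hF _, rfl⟩)
  · rw [cx_zero, mulVec_zero]
    exact Submodule.zero_mem _
  · intro x y _ _ h1 h2
    rw [cx_add, mulVec_add]
    exact Submodule.add_mem _ h1 h2
  · intro r x _ h1
    rw [cx_smul, mulVec_smul]
    exact Submodule.smul_mem _ _ h1

/-- Bilinear maps which come from morphisms. -/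
theorem SP_bilin (hS : ∀ X ∈ S, ∀ X' ∈ S, X.prod X' ∈ S) {D : Matrix E E ℂ}
    {D' : Matrix E' E' ℂ} {D'' : Matrix E'' E'' ℂ} {T : (E → ℚ) →ₗ[ℚ] (E' → ℚ) →ₗ[ℚ] (E'' → ℚ)}
    (hT : ∀ A ∈ S, ∀ A' ∈ S, ∀ (F : Matrix E A.ι ℚ) (F' : Matrix E' A'.ι ℚ), Mor A.z D F →
      Mor A'.z D' F' → Mor (dsum A.z A'.z) D'' (Matrix.of fun v p =>
        T (fun u => F u p.1) (fun w => F' w p.2) v))
    {x : E → ℚ} (hx : x ∈ SP S D) {y : E' → ℚ} (hy : y ∈ SP S D') : T x y ∈ SP S D'' := by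
  refine Submodule.span_induction (p := fun x _ => T x y ∈ SP S D'') ?_ ?_ ?_ ?_ hx
  · rintro _ ⟨A, hA, F, hF, a, rfl⟩
    refine Submodule.span_induction (p := fun y _ => T (F *ᵥ a) y ∈ SP S D'') ?_ ?_ ?_ ?_ hy
    · rintro _ ⟨A', hA', F', hF', a', rfl⟩
      have h1 := hT A hA A' hA' F F' hF hF'
      rw [← prod_z] at h1
      have h2 : T (F *ᵥ a) (F' *ᵥ a') = (Matrix.of fun v (p : (A.prod A').ι) =>
          T (fun u => F u p.1) (fun w => F' w p.2) v) *ᵥ fun p => a p.1 * a' p.2 := by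
        have h3 : F *ᵥ a = ∑ i, a i • fun u => F u i := by
          funext u
          rw [Finset.sum_apply]
          exact Finset.sum_congr rfl fun i _ => mul_comm _ _
        have h4 : F' *ᵥ a' = ∑ i, a' i • fun u => F' u i := by
          funext u
          rw [Finset.sum_apply]
          exact Finset.sum_congr rfl fun i _ => mul_comm _ _
        rw [h3, h4]
        simp only [map_sum, map_smul, LinearMap.sum_apply, LinearMap.smul_apply]
        funext v
        simp only [Finset.sum_apply, Pi.smul_apply, smul_eq_mul, mulVec, dotProduct, of_apply]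
        change _ = ∑ p : A.ι × A'.ι, _
        rw [Fintype.sum_prod_type, Finset.sum_comm]
        refine Finset.sum_congr rfl fun i _ => ?_
        rw [Finset.mul_sum]
        refine Finset.sum_congr rfl fun j _ => ?_
        change a' i * (a j * T (fun u => F u j) (fun w => F' w i) v) =
          T (fun u => F u j) (fun w => F' w i) v * (a j * a' i)
        ring
      rw [h2]
      exact mem_SP (hS A hA A' hA') h1 _
    · rw [map_zero]
      exact Submodule.zero_mem _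
    · intro x y _ _ h1 h2
      rw [map_add]
      exact Submodule.add_mem _ h1 h2
    · intro r x _ h1
      rw [map_smul]
      exact Submodule.smul_mem _ _ h1
  · rw [map_zero]
    exact Submodule.zero_mem _
  · intro x y _ _ h1 h2
    rw [map_add]
    exact Submodule.add_mem _ h1 h2
  · intro r x _ h1
    rw [map_smul]
    exact Submodule.smul_mem _ _ h1

end mor

section words

variable {C : Type} [Fintype C] [DecidableEq C] {k l n : ℕ} {S : Set Cohomology}

/-- The product of tensors as a bilinear map. -/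
def prB (e : Fin k ⊕ Fin l ≃ Fin n) :
    ((Fin k → C) → ℚ) →ₗ[ℚ] ((Fin l → C) → ℚ) →ₗ[ℚ] ((Fin n → C) → ℚ) :=
  LinearMap.mk₂ ℚ (fun b r => pr e b r)
    (fun b b' r => by funext w; exact add_mul _ _ _)
    (fun c b r => by funext w; exact mul_assoc _ _ _)
    (fun b r r' => map_add _ _ _) (fun c b r => map_smul _ _ _)

theorem prB_apply (e : Fin k ⊕ Fin l ≃ Fin n) (b : (Fin k → C) → ℚ) (r : (Fin l → C) → ℚ) :
    prB e b r = pr e b r := rfl

theorem pr_SP (hS : ∀ X ∈ S, ∀ X' ∈ S, X.prod X' ∈ S) {D : Matrix C C ℂ}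
    (e : Fin k ⊕ Fin l ≃ Fin n) {b : (Fin k → C) → ℚ} (hb : b ∈ SP S (derM k D))
    {r : (Fin l → C) → ℚ} (hr : r ∈ SP S (derM l D)) : pr e b r ∈ SP S (derM n D) := by
  rw [← prB_apply]
  refine SP_bilin hS (fun A _ A' _ F F' hF hF' => ?_) hb hr
  unfold Mor at *
  ext w p
  obtain ⟨⟨u, v⟩, rfl⟩ := (glueE e).surjective w
  have h1 : (derM n D * cK ℂ (Matrix.of fun w (p : A.ι × A'.ι) =>
      prB e (fun u => F u p.1) (fun w => F' w p.2) w)) (glueE e (u, v)) p =
      (derM n D *ᵥ fun w => ((prB e (fun u => F u p.1) (fun w => F' w p.2) w : ℚ) : ℂ))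
        (glue e u v) := rfl
  rw [h1, derM_mulVec, act_glue]
  have h2 : (fun u => ((prB e (fun u => F u p.1) (fun w => F' w p.2) (glue e u v) : ℚ) : ℂ)) =
      (F' v p.2 : ℂ) • fun u => (F u p.1 : ℂ) := by
    funext u
    rw [prB_apply, pr_glue, Pi.smul_apply, smul_eq_mul, Rat.cast_mul, mul_comm]
  have h3 : (fun v => ((prB e (fun u => F u p.1) (fun w => F' w p.2) (glue e u v) : ℚ) : ℂ)) =
      (F u p.1 : ℂ) • fun v => (F' v p.2 : ℂ) := by
    funext v
    rw [prB_apply, pr_glue, Pi.smul_apply, smul_eq_mul, Rat.cast_mul]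
  have h4 : ∀ {m : ℕ} (z : (Fin m → C) → ℂ), act Dᵀ z = derM m D *ᵥ z := by
    intro m z
    rw [derM_mulVec]
  rw [h2, h3, h4, h4, mulVec_smul, mulVec_smul, Pi.smul_apply, Pi.smul_apply]
  have h5 := congrFun (congrFun hF u) p.1
  have h6 := congrFun (congrFun hF' v) p.2
  change (derM k D *ᵥ fun u => (F u p.1 : ℂ)) u = ∑ i, (F u i : ℂ) * A.z i p.1 at h5
  change (derM l D *ᵥ fun v => (F' v p.2 : ℂ)) v = ∑ i, (F' v i : ℂ) * A'.z i p.2 at h6
  rw [h5, h6, Matrix.mul_apply]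
  change _ = ∑ q : A.ι × A'.ι, ((prB e (fun u => F u q.1) (fun w => F' w q.2)
    (glue e u v) : ℚ) : ℂ) * (A.z q.1 p.1 * (1 : Matrix A'.ι A'.ι ℂ) q.2 p.2 +
      (1 : Matrix A.ι A.ι ℂ) q.1 p.1 * A'.z q.2 p.2)
  simp only [prB_apply, pr_glue, Rat.cast_mul, mul_add, Finset.sum_add_distrib,
    Fintype.sum_prod_type]
  congr 1
  · rw [smul_eq_mul, Finset.mul_sum]
    refine Finset.sum_congr rfl fun i _ => ?_
    rw [Finset.sum_eq_single p.2]
    · rw [one_apply_eq]
      ring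
    · intro j _ hj
      rw [one_apply_ne hj]
      ring
    · intro h
      exact absurd (Finset.mem_univ _) h
  · rw [smul_eq_mul, Finset.mul_sum, Finset.sum_eq_single p.1]
    · refine Finset.sum_congr rfl fun i _ => ?_
      rw [one_apply_eq]
      ring
    · intro j _ hj
      refine Finset.sum_eq_zero fun i _ => ?_
      rw [one_apply_ne hj]
      ring
    · intro h
      exact absurd (Finset.mem_univ _) h

/-- The contraction as a bilinear map. -/
def contrB (Q : Matrix C C ℚ) (e : Fin k ⊕ Fin l ≃ Fin n) :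
    ((Fin k → C) → ℚ) →ₗ[ℚ] ((Fin n → C) → ℚ) →ₗ[ℚ] ((Fin l → C) → ℚ) :=
  LinearMap.mk₂ ℚ (fun b y => contr Q e b y)
    (fun b b' y => by
      funext v
      change ∑ u, ((b + b') ᵥ* powM k Q) u * y (glue e u v) =
        ∑ u, (b ᵥ* powM k Q) u * y (glue e u v) + ∑ u, (b' ᵥ* powM k Q) u * y (glue e u v)
      rw [← Finset.sum_add_distrib, add_vecMul]
      exact Finset.sum_congr rfl fun u _ => add_mul _ _ _)
    (fun c b y => by
      funext v
      change ∑ u, ((c • b) ᵥ* powM k Q) u * y (glue e u v) =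
        c * ∑ u, (b ᵥ* powM k Q) u * y (glue e u v)
      rw [Finset.mul_sum, smul_vecMul]
      exact Finset.sum_congr rfl fun u _ => mul_assoc _ _ _)
    (fun b y y' => by
      funext v
      change ∑ u, (b ᵥ* powM k Q) u * (y + y') (glue e u v) =
        ∑ u, (b ᵥ* powM k Q) u * y (glue e u v) + ∑ u, (b ᵥ* powM k Q) u * y' (glue e u v)
      rw [← Finset.sum_add_distrib]
      exact Finset.sum_congr rfl fun u _ => mul_add _ _ _)
    (fun c b y => by
      funext v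
      change ∑ u, (b ᵥ* powM k Q) u * (c * y (glue e u v)) =
        c * ∑ u, (b ᵥ* powM k Q) u * y (glue e u v)
      rw [Finset.mul_sum]
      exact Finset.sum_congr rfl fun u _ => mul_left_comm _ _ _)

theorem contrB_apply (Q : Matrix C C ℚ) (e : Fin k ⊕ Fin l ≃ Fin n) (b : (Fin k → C) → ℚ)
    (y : (Fin n → C) → ℚ) : contrB Q e b y = contr Q e b y := rfl

/-- The complex contraction. -/
def contrC (Q : Matrix C C ℂ) (e : Fin k ⊕ Fin l ≃ Fin n) (b : (Fin k → C) → ℂ)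
    (y : (Fin n → C) → ℂ) : (Fin l → C) → ℂ :=
  fun v => (b ᵥ* powM k Q) ⬝ᵥ fun u => y (glue e u v)

theorem cx_contr (Q : Matrix C C ℚ) (e : Fin k ⊕ Fin l ≃ Fin n) (b : (Fin k → C) → ℚ)
    (y : (Fin n → C) → ℚ) : cx (contr Q e b y) = contrC (cK ℂ Q) e (cx b) (cx y) := by
  funext v
  change ((∑ u, (b ᵥ* powM k Q) u * y (glue e u v) : ℚ) : ℂ) =
    ∑ u, (cx b ᵥ* powM k (cK ℂ Q)) u * cx y (glue e u v)
  push_cast
  refine Finset.sum_congr rfl fun u _ => ?_
  congr 1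
  rw [← powM_cK]
  change ((∑ w, b w * powM k Q w u : ℚ) : ℂ) = ∑ w, ((b w : ℚ) : ℂ) * ((powM k Q w u : ℚ) : ℂ)
  push_cast
  rfl

theorem derM_contr {D Q : Matrix C C ℂ} (hQ : Dᵀ * Q + Q * D = 0) (e : Fin k ⊕ Fin l ≃ Fin n)
    (b : (Fin k → C) → ℂ) (y : (Fin n → C) → ℂ) : derM l D *ᵥ contrC Q e b y =
      contrC Q e b (derM n D *ᵥ y) + contrC Q e (derM k D *ᵥ b) y := by
  funext v
  have h1 : (derM l D *ᵥ contrC Q e b y) v = (b ᵥ* powM k Q) ⬝ᵥ fun u =>
      act Dᵀ (fun v => y (glue e u v)) v := by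
    rw [derM_mulVec]
    unfold act contrC dotProduct
    simp only [Finset.mul_sum]
    refine Eq.trans ?_ Finset.sum_comm
    refine Finset.sum_congr rfl fun a _ => ?_
    refine Eq.trans ?_ Finset.sum_comm
    refine Finset.sum_congr rfl fun j _ => Finset.sum_congr rfl fun u _ => ?_
    ring
  have h2 : (fun u => act Dᵀ (fun v => y (glue e u v)) v) =
      (fun u => (derM n D *ᵥ y) (glue e u v)) - derM k D *ᵥ fun u => y (glue e u v) := by
    funext u
    rw [derM_mulVec, Pi.sub_apply, act_glue, derM_mulVec, add_sub_cancel_left]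
  have h3 : (derM k D)ᵀ * powM k Q + powM k Q * derM k D = 0 := derM_skew hQ
  have h4 : (b ᵥ* powM k Q) ⬝ᵥ (derM k D *ᵥ fun u => y (glue e u v)) =
      -(((derM k D *ᵥ b) ᵥ* powM k Q) ⬝ᵥ fun u => y (glue e u v)) := by
    rw [← dotProduct_mulVec, mulVec_mulVec, eq_neg_of_add_eq_zero_right h3, neg_mulVec,
      dotProduct_neg, ← mulVec_mulVec, dotProduct_mulVec, vecMul_transpose, dotProduct_mulVec]
  rw [h1, h2, dotProduct_sub, h4, sub_neg_eq_add]
  rfl

theorem contrC_sum_right {ι : Type} (s : Finset ι) (Q : Matrix C C ℂ) (e : Fin k ⊕ Fin l ≃ Fin n)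
    (b : (Fin k → C) → ℂ) (c : ι → ℂ) (y : ι → (Fin n → C) → ℂ) :
    contrC Q e b (∑ i ∈ s, c i • y i) = ∑ i ∈ s, c i • contrC Q e b (y i) := by
  funext v
  rw [Finset.sum_apply]
  have h1 : (fun u => (∑ i ∈ s, c i • y i) (glue e u v)) =
      ∑ i ∈ s, c i • fun u => y i (glue e u v) := by
    funext u
    rw [Finset.sum_apply, Finset.sum_apply]
    rfl
  change _ ⬝ᵥ _ = _
  rw [h1, dotProduct_sum]
  exact Finset.sum_congr rfl fun i _ => dotProduct_smul _ _ _

theorem contrC_sum_left {ι : Type} (s : Finset ι) (Q : Matrix C C ℂ) (e : Fin k ⊕ Fin l ≃ Fin n)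
    (b : ι → (Fin k → C) → ℂ) (c : ι → ℂ) (y : (Fin n → C) → ℂ) :
    contrC Q e (∑ i ∈ s, c i • b i) y = ∑ i ∈ s, c i • contrC Q e (b i) y := by
  funext v
  rw [Finset.sum_apply]
  change ((∑ i ∈ s, c i • b i) ᵥ* powM k Q) ⬝ᵥ _ = _
  have h1 : (∑ i ∈ s, c i • b i) ᵥ* powM k Q = ∑ i ∈ s, c i • (b i ᵥ* powM k Q) := by
    rw [sum_vecMul]
    exact Finset.sum_congr rfl fun i _ => smul_vecMul _ _ _
  rw [h1, sum_dotProduct]
  exact Finset.sum_congr rfl fun i _ => smul_dotProduct _ _ _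

theorem contr_SP (hS : ∀ X ∈ S, ∀ X' ∈ S, X.prod X' ∈ S) {D : Matrix C C ℂ} {Q : Matrix C C ℚ}
    (hQ : Dᵀ * cK ℂ Q + cK ℂ Q * D = 0) (e : Fin k ⊕ Fin l ≃ Fin n)
    {b : (Fin k → C) → ℚ} (hb : b ∈ SP S (derM k D)) {y : (Fin n → C) → ℚ}
    (hy : y ∈ SP S (derM n D)) : contr Q e b y ∈ SP S (derM l D) := by
  rw [← contrB_apply]
  refine SP_bilin hS (fun A _ A' _ F F' hF hF' => ?_) hb hy
  unfold Mor at *
  ext v p
  have h1 : (derM l D * cK ℂ (Matrix.of fun w (p : A.ι × A'.ι) =>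
      contrB Q e (fun u => F u p.1) (fun w => F' w p.2) w)) v p =
      (derM l D *ᵥ cx (contr Q e (fun u => F u p.1) (fun w => F' w p.2))) v := rfl
  have h2 : derM n D *ᵥ cx (fun w => F' w p.2) = ∑ i, A'.z i p.2 • cx (fun w => F' w i) := by
    funext w
    have h3 := congrFun (congrFun hF' w) p.2
    change (derM n D *ᵥ cx (fun w => F' w p.2)) w = ∑ i, (F' w i : ℂ) * A'.z i p.2 at h3
    rw [h3, Finset.sum_apply]
    exact Finset.sum_congr rfl fun i _ => mul_comm _ _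
  have h3 : derM k D *ᵥ cx (fun w => F w p.1) = ∑ i, A.z i p.1 • cx (fun w => F w i) := by
    funext w
    have h3 := congrFun (congrFun hF w) p.1
    change (derM k D *ᵥ cx (fun w => F w p.1)) w = ∑ i, (F w i : ℂ) * A.z i p.1 at h3
    rw [h3, Finset.sum_apply]
    exact Finset.sum_congr rfl fun i _ => mul_comm _ _
  rw [h1, cx_contr, derM_contr hQ, h2, h3, contrC_sum_right, contrC_sum_left, Pi.add_apply,
    Finset.sum_apply, Finset.sum_apply, Matrix.mul_apply]
  change _ = ∑ q : A.ι × A'.ι, cx (contr Q e (fun u => F u q.1) (fun w => F' w q.2)) v *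
    (A.z q.1 p.1 * (1 : Matrix A'.ι A'.ι ℂ) q.2 p.2 +
      (1 : Matrix A.ι A.ι ℂ) q.1 p.1 * A'.z q.2 p.2)
  simp only [cx_contr, mul_add, Finset.sum_add_distrib, Fintype.sum_prod_type, Pi.smul_apply,
    smul_eq_mul]
  rw [add_comm]
  congr 1
  · refine Finset.sum_congr rfl fun i _ => ?_
    rw [Finset.sum_eq_single p.2]
    · rw [one_apply_eq]
      ring
    · intro j _ hj
      rw [one_apply_ne hj]
      ring
    · intro h
      exact absurd (Finset.mem_univ _) h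
  · rw [Finset.sum_eq_single p.1]
    · refine Finset.sum_congr rfl fun i _ => ?_
      rw [one_apply_eq]
      ring
    · intro j _ hj
      refine Finset.sum_eq_zero fun i _ => ?_
      rw [one_apply_ne hj]
      ring
    · intro h
      exact absurd (Finset.mem_univ _) h

end words

end

end Pool.Agent.K4H35.NT
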