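import Mathlib
import Pool.Agent.K4H35.NT.SPart

/-!
# Common covers, adjoints, products of correspondences
-/

set_option linter.unusedSectionVars false

namespace Pool.Agent.K4H35.NT

open Matrix Module Pool.Agent.W437.HC Pool.Agent.W437.HP Pool.Agent.K4H35.ST

open scoped ComplexOrder Kronecker

noncomputable section

section pol

variable {E E' : Type} [Fintype E] [DecidableEq E] [Fintype E'] [DecidableEq E']

theorem aniso {D : Matrix E E ℂ} {Q : Matrix E E ℚ} (f : Fr D (cK ℂ Q)) {x : E → ℚ}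
    (hx : D *ᵥ cx x = 0) (h : x ⬝ᵥ (Q *ᵥ x) = 0) : x = 0 := by
  refine nondeg f (W := Submodule.span ℚ {x}) ?_ (Submodule.mem_span_singleton_self x) ?_
  · intro y hy
    obtain ⟨r, rfl⟩ := Submodule.mem_span_singleton.1 hy
    rw [cx_smul, mulVec_smul, hx, smul_zero]
    exact Submodule.zero_mem _
  · intro y hy
    obtain ⟨r, rfl⟩ := Submodule.mem_span_singleton.1 hy
    rw [mulVec_smul, dotProduct_smul, h, smul_zero]

/-- The frames of polarized cohomology. -/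
theorem IsPolarizedHodge.frame {X : Cohomology} (h : IsPolarizedHodge X) :
    ∃ Q : Matrix X.ι X.ι ℚ, Q.det ≠ 0 ∧ X.zᵀ * cK ℂ Q + cK ℂ Q * X.z = 0 ∧
      Nonempty (Fr X.z (cK ℂ Q)) := by
  obtain ⟨Q, hQ⟩ := h.polarized
  have hpair : ∀ x y : X.ι → ℂ, form Q x y = x ⬝ᵥ cK ℂ Q *ᵥ y := by
    intro x y
    unfold form dotProduct
    refine Finset.sum_congr rfl fun a _ => ?_
    simp only [mulVec, dotProduct, Finset.mul_sum]
    exact Finset.sum_congr rfl fun b _ => mul_assoc _ _ _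
  have hQT : cK ℂ Qᵀ = (cK ℂ Q)ᵀ := rfl
  have h1 : X.zᵀ * cK ℂ Q + cK ℂ Q * X.z = 0 := by
    ext a b
    have h2 := hQ.1 (Pi.single a 1) (Pi.single b 1)
    have e1 : form Q (X.z *ᵥ Pi.single a 1) (Pi.single b 1) = (X.zᵀ * cK ℂ Q) a b := by
      rw [hpair, mulVec_single_one, mulVec_single_one]
      rfl
    have e2 : form Q (Pi.single a 1) (X.z *ᵥ Pi.single b 1) = (cK ℂ Q * X.z) a b := by
      rw [hpair, mulVec_mulVec, mulVec_single_one, single_one_dotProduct]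
      rfl
    rw [e1, e2] at h2
    exact h2
  have h2 : X.zᵀ * cK ℂ Qᵀ + cK ℂ Qᵀ * X.z = 0 := by
    have h3 := congrArg Matrix.transpose h1
    rw [transpose_add, transpose_mul, transpose_mul, transpose_transpose, transpose_zero,
      add_comm] at h3
    exact h3
  have h3 : IsPol X.z (cK ℂ Qᵀ) := by
    refine ⟨h2, fun k x hx hk => ?_⟩
    obtain ⟨r, hr, h4⟩ := hQ.2 k x hx hk
    have h5 : star x ⬝ᵥ cK ℂ Qᵀ *ᵥ x = form Q x (fun a => starRingEnd ℂ (x a)) := by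
      rw [hpair, hQT, mulVec_transpose, dotProduct_comm, ← dotProduct_mulVec]
      rfl
    rw [h5, h4]
    exact_mod_cast hr
  obtain ⟨f⟩ := exists_fr h.real h.decomp h3
  refine ⟨Qᵀ, fun h4 => f.det_ne ?_, h2, ⟨f⟩⟩
  have h5 : (cK ℂ Qᵀ).det = ((Qᵀ.det : ℚ) : ℂ) := (RingHom.map_det (Rat.castHom ℂ) Qᵀ).symm
  rw [h5, h4, Rat.cast_zero]

theorem det_ne_of_fr {D : Matrix E E ℂ} {Q : Matrix E E ℚ} (f : Fr D (cK ℂ Q)) : Q.det ≠ 0 := by
  intro h
  refine f.det_ne ?_
  have h5 : (cK ℂ Q).det = ((Q.det : ℚ) : ℂ) := (RingHom.map_det (Rat.castHom ℂ) Q).symm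
  rw [h5, h, Rat.cast_zero]

/-- The orthogonality to the Hodge classes is preserved by morphisms. -/
theorem orth_map {D : Matrix E E ℂ} {D' : Matrix E' E' ℂ} {Q : Matrix E E ℚ}
    {Q' : Matrix E' E' ℚ} (hdet : Q.det ≠ 0) (hQ : Dᵀ * cK ℂ Q + cK ℂ Q * D = 0)
    (hQ' : D'ᵀ * cK ℂ Q' + cK ℂ Q' * D' = 0) {M : Matrix E' E ℚ} (hM : Mor D D' M)
    {g : E → ℚ} (hg : ∀ h : E → ℚ, D *ᵥ cx h = 0 → g ⬝ᵥ (Q *ᵥ h) = 0) {y : E' → ℚ}
    (hy : D' *ᵥ cx y = 0) : (M *ᵥ g) ⬝ᵥ (Q' *ᵥ y) = 0 := by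
  have hu : IsUnit Q.det := isUnit_iff_ne_zero.2 hdet
  have h1 : Q * Q⁻¹ = 1 := Matrix.mul_nonsing_inv _ hu
  have h2 : (M *ᵥ g) ⬝ᵥ (Q' *ᵥ y) = g ⬝ᵥ (Q *ᵥ (Q⁻¹ *ᵥ (Mᵀ *ᵥ (Q' *ᵥ y)))) := by
    rw [mulVec_mulVec _ Q, h1, one_mulVec, dotProduct_mulVec g, vecMul_transpose]
  rw [h2]
  refine hg _ ?_
  have h3 : cK ℂ Q⁻¹ * cK ℂ Q = 1 := by
    rw [← cK_mul, Matrix.nonsing_inv_mul _ hu, cK_one]
  have h4 : cK ℂ Q * cK ℂ Q⁻¹ = 1 := by rw [← cK_mul, h1, cK_one]
  have h5 : D * cK ℂ Q⁻¹ = -(cK ℂ Q⁻¹ * Dᵀ) := by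
    have h6 : Dᵀ * cK ℂ Q = -(cK ℂ Q * D) := eq_neg_of_add_eq_zero_left hQ
    calc D * cK ℂ Q⁻¹ = cK ℂ Q⁻¹ * (cK ℂ Q * D) * cK ℂ Q⁻¹ := by
          rw [← Matrix.mul_assoc, h3, Matrix.one_mul]
      _ = -(cK ℂ Q⁻¹ * (Dᵀ * cK ℂ Q) * cK ℂ Q⁻¹) := by
          rw [h6, Matrix.mul_neg, Matrix.neg_mul, neg_neg]
      _ = -(cK ℂ Q⁻¹ * Dᵀ) := by
          rw [Matrix.mul_assoc, Matrix.mul_assoc, h4, Matrix.mul_one]
  have h6 : Dᵀ * (cK ℂ M)ᵀ = (cK ℂ M)ᵀ * D'ᵀ := by
    rw [← transpose_mul, ← transpose_mul, hM]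
  have h7 : D'ᵀ * cK ℂ Q' = -(cK ℂ Q' * D') := eq_neg_of_add_eq_zero_left hQ'
  rw [cx_mulVec, cx_mulVec, cx_mulVec, mulVec_mulVec, h5, neg_mulVec, ← mulVec_mulVec,
    cK_transpose, mulVec_mulVec _ Dᵀ, h6, ← mulVec_mulVec, mulVec_mulVec _ D'ᵀ, h7, neg_mulVec,
    ← mulVec_mulVec, hy, mulVec_zero, neg_zero, mulVec_zero, mulVec_zero, neg_zero]

/-- The Hodge classes. -/
def Hdg (D : Matrix E E ℂ) : Submodule ℚ (E → ℚ) where
  carrier := {x | D *ᵥ cx x = 0}
  zero_mem' := by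
    change D *ᵥ cx 0 = 0
    rw [cx_zero, mulVec_zero]
  add_mem' := by
    intro x y hx hy
    change D *ᵥ cx (x + y) = 0
    rw [cx_add, mulVec_add, show D *ᵥ cx x = 0 from hx, show D *ᵥ cx y = 0 from hy, add_zero]
  smul_mem' := by
    intro r x hx
    change D *ᵥ cx (r • x) = 0
    rw [cx_smul, mulVec_smul, show D *ᵥ cx x = 0 from hx, smul_zero]

/-- The bilinear form. -/
def bf (Q : Matrix E E ℚ) : (E → ℚ) →ₗ[ℚ] (E → ℚ) →ₗ[ℚ] ℚ :=
  LinearMap.mk₂ ℚ (fun x y => x ⬝ᵥ (Q *ᵥ y))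
    (fun _ _ _ => add_dotProduct _ _ _) (fun _ _ _ => smul_dotProduct _ _ _)
    (fun _ _ _ => by rw [mulVec_add, dotProduct_add])
    (fun _ _ _ => by rw [mulVec_smul, dotProduct_smul])

theorem exists_hodge_part {D : Matrix E E ℂ} {Q : Matrix E E ℚ} (f : Fr D (cK ℂ Q))
    (g : E → ℚ) : ∃ h, D *ᵥ cx h = 0 ∧ ∀ y : E → ℚ, D *ᵥ cx y = 0 → (g - h) ⬝ᵥ (Q *ᵥ y) = 0 := by
  obtain ⟨b, hb, h⟩ := exists_split (bf Q) (Hdg D) (fun x hx h => aniso f hx (h x hx)) g
  exact ⟨b, hb, fun y hy => h y hy⟩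

theorem skew_of_fr_prod {D : Matrix E E ℂ} {D' : Matrix E' E' ℂ} {Q : Matrix E E ℂ}
    {Q' : Matrix E' E' ℂ} (hQ : Dᵀ * Q + Q * D = 0) (hQ' : D'ᵀ * Q' + Q' * D' = 0) :
    (dsum D D')ᵀ * (Q ⊗ₖ Q') + (Q ⊗ₖ Q') * dsum D D' = 0 := by
  have h1 : (dsum D D')ᵀ = Dᵀ ⊗ₖ (1 : Matrix E' E' ℂ) + (1 : Matrix E E ℂ) ⊗ₖ D'ᵀ := by
    unfold dsum
    rw [transpose_add, ← kroneckerMap_transpose, ← kroneckerMap_transpose, transpose_one,
      transpose_one]
  have h2 : Dᵀ * Q = -(Q * D) := eq_neg_of_add_eq_zero_left hQ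
  have h3 : D'ᵀ * Q' = -(Q' * D') := eq_neg_of_add_eq_zero_left hQ'
  rw [h1]
  unfold dsum
  rw [Matrix.add_mul, Matrix.mul_add, ← mul_kronecker_mul, ← mul_kronecker_mul,
    ← mul_kronecker_mul, ← mul_kronecker_mul, h2, h3, Matrix.one_mul, Matrix.one_mul,
    Matrix.mul_one, Matrix.mul_one]
  ext p q
  change -(Q * D) p.1 q.1 * Q' p.2 q.2 + Q p.1 q.1 * -(Q' * D') p.2 q.2 +
    ((Q * D) p.1 q.1 * Q' p.2 q.2 + Q p.1 q.1 * (Q' * D') p.2 q.2) = 0
  ring

end pol

section cover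

variable {S : Set Cohomology}

/-- A finite set of varieties in `S` is dominated by one variety in `S`. -/
theorem exists_cover (hne : S.Nonempty) (hpol : ∀ X ∈ S, IsPolarizedHodge X)
    (hS : ∀ X ∈ S, ∀ X' ∈ S, X.prod X' ∈ S) (L : List Cohomology) (hL : ∀ A ∈ L, A ∈ S) :
    ∃ B ∈ S, ∀ A ∈ L, ∃ π : Matrix A.ι B.ι ℚ, Mor B.z A.z π ∧ ∀ a, ∃ b, π *ᵥ b = a := by
  have hcov : ∀ X ∈ S, ∃ ψ : X.ι → ℚ, cx ψ ᵥ* X.z = 0 ∧ ψ ⬝ᵥ X.one = 1 := by
    intro X hX
    obtain ⟨Q, -, hQ, ⟨f⟩⟩ := (hpol X hX).frame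
    have h1 : X.one ⬝ᵥ (Q *ᵥ X.one) ≠ 0 := fun h =>
      (hpol X hX).one_ne (aniso f (hpol X hX).one_hodge h)
    refine ⟨(X.one ⬝ᵥ (Q *ᵥ X.one))⁻¹ • (X.one ᵥ* Q), ?_, ?_⟩
    · have h2 : cx (X.one ᵥ* Q) = cx X.one ᵥ* cK ℂ Q := by
        funext w
        change ((∑ a, X.one a * Q a w : ℚ) : ℂ) = ∑ a, ((X.one a : ℚ) : ℂ) * ((Q a w : ℚ) : ℂ)
        push_cast
        rfl
      have h3 : cK ℂ Q * X.z = -(X.zᵀ * cK ℂ Q) := eq_neg_of_add_eq_zero_right hQ
      have h4 : X.z *ᵥ cx X.one = 0 := (hpol X hX).one_hodge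
      rw [cx_smul, smul_vecMul, h2, vecMul_vecMul, h3, vecMul_neg, ← vecMul_vecMul,
        vecMul_transpose, h4, zero_vecMul, neg_zero, smul_zero]
    · rw [smul_dotProduct, ← dotProduct_mulVec, smul_eq_mul, inv_mul_cancel₀ h1]
  induction L with
  | nil =>
    obtain ⟨B, hB⟩ := hne
    exact ⟨B, hB, fun A hA => absurd hA (List.not_mem_nil)⟩
  | cons A0 L ih =>
    obtain ⟨B, hB, h1⟩ := ih fun A hA => hL A (List.mem_cons_of_mem _ hA)
    have hA0 : A0 ∈ S := hL A0 List.mem_cons_self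
    have hfst : ∃ π : Matrix B.ι (B.prod A0).ι ℚ, Mor (B.prod A0).z B.z π ∧
        ∀ a, ∃ b, π *ᵥ b = a := by
      obtain ⟨ψ, hψ, hψ1⟩ := hcov A0 hA0
      refine ⟨Matrix.of fun b (p : B.ι × A0.ι) => if b = p.1 then ψ p.2 else 0, ?_, fun a =>
        ⟨fun p => a p.1 * A0.one p.2, ?_⟩⟩
      · unfold Mor
        rw [prod_z]
        ext b p
        change ∑ c, B.z b c * ((if c = p.1 then ψ p.2 else 0 : ℚ) : ℂ) =
          ∑ q : B.ι × A0.ι, ((if b = q.1 then ψ q.2 else 0 : ℚ) : ℂ) *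
            (B.z q.1 p.1 * (1 : Matrix A0.ι A0.ι ℂ) q.2 p.2 +
              (1 : Matrix B.ι B.ι ℂ) q.1 p.1 * A0.z q.2 p.2)
        rw [Fintype.sum_prod_type, Finset.sum_eq_single p.1, Finset.sum_eq_single b]
        · rw [if_pos rfl]
          simp only [if_true, mul_add, Finset.sum_add_distrib]
          have h2 : ∑ x, ((ψ x : ℚ) : ℂ) * ((1 : Matrix B.ι B.ι ℂ) b p.1 * A0.z x p.2) = 0 := by
            have h3 := congrFun hψ p.2
            change ∑ x, ((ψ x : ℚ) : ℂ) * A0.z x p.2 = 0 at h3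
            calc ∑ x, ((ψ x : ℚ) : ℂ) * ((1 : Matrix B.ι B.ι ℂ) b p.1 * A0.z x p.2)
                = (1 : Matrix B.ι B.ι ℂ) b p.1 * ∑ x, ((ψ x : ℚ) : ℂ) * A0.z x p.2 := by
                  rw [Finset.mul_sum]
                  exact Finset.sum_congr rfl fun x _ => mul_left_comm _ _ _
              _ = 0 := by rw [h3, mul_zero]
          rw [h2, add_zero, Finset.sum_eq_single p.2]
          · rw [one_apply_eq, mul_one, mul_comm]
          · intro c _ hc
            rw [one_apply_ne hc, mul_zero, mul_zero]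
          · intro h
            exact absurd (Finset.mem_univ _) h
        · intro c _ hc
          refine Finset.sum_eq_zero fun x _ => ?_
          rw [if_neg (Ne.symm hc), Rat.cast_zero, zero_mul]
        · intro h
          exact absurd (Finset.mem_univ _) h
        · intro c _ hc
          rw [if_neg hc, Rat.cast_zero, mul_zero]
        · intro h
          exact absurd (Finset.mem_univ _) h
      · funext b
        change ∑ p : B.ι × A0.ι, (if b = p.1 then ψ p.2 else 0) * (a p.1 * A0.one p.2) = a b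
        rw [Fintype.sum_prod_type, Finset.sum_eq_single b]
        · simp only [if_true]
          calc ∑ x, ψ x * (a b * A0.one x) = a b * ∑ x, ψ x * A0.one x := by
                rw [Finset.mul_sum]
                exact Finset.sum_congr rfl fun x _ => mul_left_comm _ _ _
            _ = a b := by
                change a b * (ψ ⬝ᵥ A0.one) = a b
                rw [hψ1, mul_one]
        · intro c _ hc
          refine Finset.sum_eq_zero fun x _ => ?_
          rw [if_neg (Ne.symm hc), zero_mul]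
        · intro h
          exact absurd (Finset.mem_univ _) h
    have hsnd : ∃ π : Matrix A0.ι (B.prod A0).ι ℚ, Mor (B.prod A0).z A0.z π ∧
        ∀ a, ∃ b, π *ᵥ b = a := by
      obtain ⟨ψ, hψ, hψ1⟩ := hcov B hB
      refine ⟨Matrix.of fun b (p : B.ι × A0.ι) => if b = p.2 then ψ p.1 else 0, ?_, fun a =>
        ⟨fun p => B.one p.1 * a p.2, ?_⟩⟩
      · unfold Mor
        rw [prod_z]
        ext b p
        change ∑ c, A0.z b c * ((if c = p.2 then ψ p.1 else 0 : ℚ) : ℂ) =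
          ∑ q : B.ι × A0.ι, ((if b = q.2 then ψ q.1 else 0 : ℚ) : ℂ) *
            (B.z q.1 p.1 * (1 : Matrix A0.ι A0.ι ℂ) q.2 p.2 +
              (1 : Matrix B.ι B.ι ℂ) q.1 p.1 * A0.z q.2 p.2)
        rw [Fintype.sum_prod_type_right, Finset.sum_eq_single p.2, Finset.sum_eq_single b]
        · rw [if_pos rfl]
          simp only [if_true, mul_add, Finset.sum_add_distrib]
          have h2 : ∑ x, ((ψ x : ℚ) : ℂ) * (B.z x p.1 * (1 : Matrix A0.ι A0.ι ℂ) b p.2) = 0 := by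
            have h3 := congrFun hψ p.1
            change ∑ x, ((ψ x : ℚ) : ℂ) * B.z x p.1 = 0 at h3
            calc ∑ x, ((ψ x : ℚ) : ℂ) * (B.z x p.1 * (1 : Matrix A0.ι A0.ι ℂ) b p.2)
                = (∑ x, ((ψ x : ℚ) : ℂ) * B.z x p.1) * (1 : Matrix A0.ι A0.ι ℂ) b p.2 := by
                  rw [Finset.sum_mul]
                  exact Finset.sum_congr rfl fun x _ => (mul_assoc _ _ _).symm
              _ = 0 := by rw [h3, zero_mul]
          rw [h2, zero_add, Finset.sum_eq_single p.1]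
          · rw [one_apply_eq, one_mul, mul_comm]
          · intro c _ hc
            rw [one_apply_ne hc, zero_mul, mul_zero]
          · intro h
            exact absurd (Finset.mem_univ _) h
        · intro c _ hc
          refine Finset.sum_eq_zero fun x _ => ?_
          rw [if_neg (Ne.symm hc), Rat.cast_zero, zero_mul]
        · intro h
          exact absurd (Finset.mem_univ _) h
        · intro c _ hc
          rw [if_neg hc, Rat.cast_zero, mul_zero]
        · intro h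
          exact absurd (Finset.mem_univ _) h
      · funext b
        change ∑ p : B.ι × A0.ι, (if b = p.2 then ψ p.1 else 0) * (B.one p.1 * a p.2) = a b
        rw [Fintype.sum_prod_type_right, Finset.sum_eq_single b]
        · simp only [if_true]
          calc ∑ x, ψ x * (B.one x * a b) = (∑ x, ψ x * B.one x) * a b := by
                rw [Finset.sum_mul]
                exact Finset.sum_congr rfl fun x _ => (mul_assoc _ _ _).symm
            _ = a b := by
                change (ψ ⬝ᵥ B.one) * a b = a b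
                rw [hψ1, one_mul]
        · intro c _ hc
          refine Finset.sum_eq_zero fun x _ => ?_
          rw [if_neg (Ne.symm hc), zero_mul]
        · intro h
          exact absurd (Finset.mem_univ _) h
    refine ⟨B.prod A0, hS B hB A0 hA0, fun A hA => ?_⟩
    rcases List.mem_cons.1 hA with rfl | hA
    · exact hsnd
    · obtain ⟨π, hπ, h2⟩ := h1 A hA
      obtain ⟨π', hπ', h3⟩ := hfst
      refine ⟨π * π', hπ'.comp hπ, fun a => ?_⟩
      obtain ⟨b, hb⟩ := h2 a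
      obtain ⟨c, hc⟩ := h3 b
      exact ⟨c, by rw [← mulVec_mulVec, hc, hb]⟩

end cover

section blocks

variable {C : Type} [Fintype C] [DecidableEq C]

/-- The derivations on a product of tensors. -/
theorem derM_prodT {D : Matrix C C ℂ} {t N : ℕ} {κ : Fin t → ℕ} (e : (Σ s, Fin (κ s)) ≃ Fin N)
    (b : ∀ s, (Fin (κ s) → C) → ℂ) (w : Fin N → C) : (derM N D *ᵥ prodT e b) w =
      ∑ s, (derM (κ s) D *ᵥ b s) (fun a => w (e ⟨s, a⟩)) *
        ∏ s' ∈ Finset.univ.erase s, b s' fun a => w (e ⟨s', a⟩) := by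
  rw [derM_mulVec]
  unfold act
  rw [← e.sum_comp, Fintype.sum_sigma]
  refine Finset.sum_congr rfl fun s _ => ?_
  rw [derM_mulVec]
  unfold act
  rw [Finset.sum_mul]
  refine Finset.sum_congr rfl fun a _ => ?_
  rw [Finset.sum_mul]
  refine Finset.sum_congr rfl fun j _ => ?_
  rw [mul_assoc]
  congr 1
  unfold prodT
  rw [← Finset.mul_prod_erase _ _ (Finset.mem_univ s)]
  congr 1
  · congr 1
    funext a'
    rcases eq_or_ne a' a with rfl | h
    · rw [Function.update_self, Function.update_self]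
    · rw [Function.update_of_ne h, Function.update_of_ne]
      intro h2
      have h3 := e.injective h2
      exact h (by simpa using h3)
  · refine Finset.prod_congr rfl fun s' hs' => ?_
    congr 1
    funext a'
    rw [Function.update_of_ne]
    intro h2
    have h3 := e.injective h2
    exact Finset.ne_of_mem_erase hs' (congrArg Sigma.fst h3)

/-- The product of correspondences. -/
def bigF {B : Type} {m : ℕ} {n : Fin m → ℕ} (F : ∀ i, Matrix (Fin (n i) → C) B ℚ) {N t : ℕ}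
    (c : Fin t → Fin m) (e : (Σ s, Fin (n (c s))) ≃ Fin N) :
    Matrix (Fin N → C) (Fin t → B) ℚ :=
  Matrix.of fun w u => ∏ s, F (c s) (fun a => w (e ⟨s, a⟩)) (u s)

theorem mor_bigF {B : Type} [Fintype B] [DecidableEq B] {D : Matrix C C ℂ} {DB : Matrix B B ℂ}
    {m : ℕ} {n : Fin m → ℕ}
    {F : ∀ i, Matrix (Fin (n i) → C) B ℚ} (hF : ∀ i, Mor DB (derM (n i) D) (F i)) {N t : ℕ}
    (c : Fin t → Fin m) (e : (Σ s, Fin (n (c s))) ≃ Fin N) :
    Mor (derM t DB) (derM N D) (bigF F c e) := by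
  unfold Mor
  ext w u
  have h1 : (derM N D * cK ℂ (bigF F c e)) w u =
      (derM N D *ᵥ prodT e fun s v => ((F (c s) v (u s) : ℚ) : ℂ)) w := by
    rw [Matrix.mul_apply]
    refine Finset.sum_congr rfl fun w' _ => ?_
    congr 1
    change ((∏ s, F (c s) (fun a => w' (e ⟨s, a⟩)) (u s) : ℚ) : ℂ) = _
    push_cast
    rfl
  rw [h1, derM_prodT, Matrix.mul_apply]
  have h2 : ∀ s, (derM (n (c s)) D *ᵥ fun v => ((F (c s) v (u s) : ℚ) : ℂ))
      (fun a => w (e ⟨s, a⟩)) = ∑ j, ((F (c s) (fun a => w (e ⟨s, a⟩)) j : ℚ) : ℂ) * DB j (u s) :=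
    fun s => congrFun (congrFun (hF (c s)) fun a => w (e ⟨s, a⟩)) (u s)
  simp only [h2]
  have h3 : ∀ u' : Fin t → B, cK ℂ (bigF F c e) w u' * derM t DB u' u =
      ∑ s, if ∀ l, l ≠ s → u' l = u l then cK ℂ (bigF F c e) w u' * DB (u' s) (u s) else 0 := by
    intro u'
    rw [derM_apply, Finset.mul_sum]
    refine Finset.sum_congr rfl fun s _ => ?_
    split_ifs
    · rfl
    · exact mul_zero _
  simp only [h3]
  rw [Finset.sum_comm]
  refine Finset.sum_congr rfl fun s _ => ?_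
  rw [Finset.sum_mul]
  have h4 : ∀ u' : Fin t → B, (if ∀ l, l ≠ s → u' l = u l then
      cK ℂ (bigF F c e) w u' * DB (u' s) (u s) else 0) =
      ∑ j, if u' = Function.update u s j then
        ((F (c s) (fun a => w (e ⟨s, a⟩)) j : ℚ) : ℂ) * DB j (u s) *
          ∏ s' ∈ Finset.univ.erase s, ((F (c s') (fun a => w (e ⟨s', a⟩)) (u s') : ℚ) : ℂ)
        else 0 := by
    intro u'
    by_cases hu : ∀ l, l ≠ s → u' l = u l
    · rw [if_pos hu, Finset.sum_eq_single (u' s)]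
      · rw [if_pos]
        · have h5 : cK ℂ (bigF F c e) w u' = ∏ s', ((F (c s') (fun a => w (e ⟨s', a⟩))
              (u' s') : ℚ) : ℂ) := by
            change ((∏ s, F (c s) (fun a => w (e ⟨s, a⟩)) (u' s) : ℚ) : ℂ) = _
            push_cast
            rfl
          rw [h5, ← Finset.mul_prod_erase _ _ (Finset.mem_univ s)]
          have h6 : ∏ s' ∈ Finset.univ.erase s, ((F (c s') (fun a => w (e ⟨s', a⟩))
              (u' s') : ℚ) : ℂ) = ∏ s' ∈ Finset.univ.erase s,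
                ((F (c s') (fun a => w (e ⟨s', a⟩)) (u s') : ℚ) : ℂ) :=
            Finset.prod_congr rfl fun s' hs' => by rw [hu s' (Finset.ne_of_mem_erase hs')]
          rw [h6]
          ring
        · funext l
          by_cases hl : l = s
          · rw [hl, Function.update_self]
          · rw [Function.update_of_ne hl, hu l hl]
      · intro j _ hj
        rw [if_neg]
        intro h
        apply hj
        rw [h, Function.update_self]
      · intro h
        exact absurd (Finset.mem_univ _) h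
    · rw [if_neg hu]
      refine (Finset.sum_eq_zero fun j _ => ?_).symm
      rw [if_neg]
      intro h
      apply hu
      intro l hl
      rw [h, Function.update_of_ne hl]
  simp only [h4]
  rw [Finset.sum_comm]
  refine Finset.sum_congr rfl fun j _ => ?_
  rw [Finset.sum_ite_eq' Finset.univ (Function.update u s j), if_pos (Finset.mem_univ _)]

theorem bigF_mulVec {B : Type} [Fintype B] {m : ℕ} {n : Fin m → ℕ}
    (F : ∀ i, Matrix (Fin (n i) → C) B ℚ) {N t : ℕ}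
    (c : Fin t → Fin m) (e : (Σ s, Fin (n (c s))) ≃ Fin N) (b : Fin t → B → ℚ) :
    bigF F c e *ᵥ (fun u => ∏ s, b s (u s)) = prodT e fun s => F (c s) *ᵥ b s := by
  classical
  funext w
  change ∑ u : Fin t → B, (∏ s, F (c s) (fun a => w (e ⟨s, a⟩)) (u s)) * ∏ s, b s (u s) =
    ∏ s, ∑ j, F (c s) (fun a => w (e ⟨s, a⟩)) j * b s j
  rw [Finset.prod_univ_sum]
  simp only [Fintype.piFinset_univ, Finset.prod_mul_distrib]

end blocks

end

end Pool.Agent.K4H35.NT
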